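import Pool.Agent.helper16.GK.Spec

/-!
# Project GK (MP_2e0e07_nt), row INR: trivial inertia implies unramified
-/

set_option autoImplicit false

namespace Pool.Agent.GK

open NumberField IsDedekindDomain

theorem INR_smul {M Ω : Type} [Field M] [Field Ω] [Algebra M Ω] (σ : Gal(Ω/M)) (x : 𝓞 Ω) : ((σ • x : 𝓞 Ω) : Ω) = σ (x : Ω) := rfl

theorem INR_alg {L Ω : Type} [Field L] [Field Ω] [Algebra L Ω] (x : 𝓞 L) : ((algebraMap (𝓞 L) (𝓞 Ω) x : 𝓞 Ω) : Ω) = algebraMap L Ω (x : L) := rfl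

theorem INR_ext {Ω : Type} [Field Ω] {x y : 𝓞 Ω} (h : (x : Ω) = (y : Ω)) : x = y := RingOfIntegers.ext h

theorem INR (hSTB : STB_stmt) (hTRS : TRS_stmt) (hDIF : DIF_stmt) (hGUP : GUP_stmt) : INR_stmt := by
  intro K _ _ L _ _ _ v hin P hP hPv hdvd
  have hPne : P ≠ ⊥ := by
    intro h
    apply v.ne_bot
    rw [eq_bot_iff]
    intro x hx
    rw [← hPv, h] at hx
    have h1 : algebraMap (𝓞 K) (𝓞 L) x = 0 := hx
    have h2 : ((algebraMap (𝓞 K) (𝓞 L) x : 𝓞 L) : L) = algebraMap K L (x : K) := rfl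
    rw [h1] at h2
    have h3 : algebraMap K L (x : K) = algebraMap K L 0 := by rw [map_zero, ← h2]; rfl
    have h4 : (x : K) = 0 := (algebraMap K L).injective h3
    exact INR_ext (by rw [h4]; rfl)
  obtain ⟨τ, hτ1, hτ⟩ := (hDIF K L P hP hPne).1 hdvd
  obtain ⟨g, hg⟩ := AlgEquiv.restrictNormalHom_surjective (F := K) (K₁ := L) (AlgebraicClosure K) τ
  have hgL : ∀ x : L, g (algebraMap L (AlgebraicClosure K) x) = algebraMap L (AlgebraicClosure K) (τ x) := by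
    intro x
    rw [← hg]
    exact (AlgEquiv.restrictNormal_commutes g L x).symm
  obtain ⟨Q, hQ, hQP⟩ := hGUP L (AlgebraicClosure K) P hP
  have hgO : ∀ x : 𝓞 L, g • (algebraMap (𝓞 L) (𝓞 (AlgebraicClosure K)) x) = algebraMap (𝓞 L) (𝓞 (AlgebraicClosure K)) (τ • x) := by
    intro x
    apply INR_ext
    rw [INR_smul, INR_alg, INR_alg, hgL, INR_smul]
  have hτP : ∀ x : 𝓞 L, τ • x ∈ P ↔ x ∈ P := by
    intro x
    have h1 := hτ x
    constructor
    · intro h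
      have h2 := P.sub_mem h h1
      rwa [sub_sub_cancel] at h2
    · intro h
      have h2 := P.add_mem h1 h
      rwa [sub_add_cancel] at h2
  let fg : 𝓞 (AlgebraicClosure K) →+* 𝓞 (AlgebraicClosure K) := MulSemiringAction.toRingHom (GalK K) (𝓞 (AlgebraicClosure K)) g
  let Q' : Ideal (𝓞 (AlgebraicClosure K)) := Q.comap fg
  have hQ'mem : ∀ x, x ∈ Q' ↔ g • x ∈ Q := fun x => Iff.rfl
  have hQ' : Q'.IsPrime := Ideal.comap_isPrime fg Q
  have hund : Q.under (𝓞 L) = Q'.under (𝓞 L) := by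
    ext x
    rw [Ideal.mem_comap, Ideal.mem_comap, hQ'mem, hgO, ← Ideal.mem_comap, ← Ideal.mem_comap]
    show x ∈ Q.under (𝓞 L) ↔ τ • x ∈ Q.under (𝓞 L)
    rw [hQP, hτP]
  obtain ⟨h0, hh0⟩ := hTRS L (AlgebraicClosure K) Q Q' hQ hQ' hund
  let h0K : GalK K := AlgEquiv.restrictScalars K h0
  let σ₁ : GalK K := g * h0K
  have hσ₁ : ∀ x : 𝓞 (AlgebraicClosure K), x ∈ Q ↔ σ₁ • x ∈ Q := by
    intro x
    rw [hh0 x, hQ'mem]
    exact Iff.rfl
  let f : 𝓞 (AlgebraicClosure K) ≃+* 𝓞 (AlgebraicClosure K) := MulSemiringAction.toRingEquiv (GalK K) (𝓞 (AlgebraicClosure K)) σ₁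
  have hfQ : Q = Ideal.map (f : 𝓞 (AlgebraicClosure K) →+* 𝓞 (AlgebraicClosure K)) Q := by
    have h1 : Q.comap (f : 𝓞 (AlgebraicClosure K) →+* 𝓞 (AlgebraicClosure K)) = Q := by
      ext x
      rw [Ideal.mem_comap]
      exact (hσ₁ x).symm
    have h2 := Ideal.map_comap_of_surjective (f : 𝓞 (AlgebraicClosure K) →+* 𝓞 (AlgebraicClosure K)) f.surjective Q
    rw [h1] at h2
    exact h2.symm
  let φ : (𝓞 (AlgebraicClosure K) ⧸ Q) ≃+* (𝓞 (AlgebraicClosure K) ⧸ Q) := Ideal.quotientEquiv Q Q f hfQ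
  have hφ : ∀ x : 𝓞 (AlgebraicClosure K), φ (Ideal.Quotient.mk Q x) = Ideal.Quotient.mk Q (σ₁ • x) := fun x => rfl
  have hh0L : ∀ x : L, h0 (algebraMap L (AlgebraicClosure K) x) = algebraMap L (AlgebraicClosure K) x := fun x => h0.commutes x
  have hφL : ∀ x : 𝓞 L, φ (Ideal.Quotient.mk Q (algebraMap (𝓞 L) (𝓞 (AlgebraicClosure K)) x)) =
      Ideal.Quotient.mk Q (algebraMap (𝓞 L) (𝓞 (AlgebraicClosure K)) x) := by
    intro x
    rw [hφ, Ideal.Quotient.eq]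
    have h1 : σ₁ • (algebraMap (𝓞 L) (𝓞 (AlgebraicClosure K)) x) = algebraMap (𝓞 L) (𝓞 (AlgebraicClosure K)) (τ • x) := by
      rw [← hgO]
      apply INR_ext
      show g (h0 (algebraMap L (AlgebraicClosure K) (x : L))) = g (algebraMap L (AlgebraicClosure K) (x : L))
      rw [hh0L]
    rw [h1, ← map_sub]
    have h2 : τ • x - x ∈ Q.under (𝓞 L) := by rw [hQP]; exact hτ x
    exact h2
  obtain ⟨σ₂, hσ₂⟩ := hSTB L (AlgebraicClosure K) Q hQ φ hφL
  let σ₂K : GalK K := AlgEquiv.restrictScalars K σ₂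
  have hσin : σ₁ * σ₂K⁻¹ ∈ inert K v := by
    refine ⟨Q, hQ, ?_, ?_⟩
    · rw [← hPv, ← hQP]
      ext x
      exact Iff.rfl
    · intro y
      have h1 := hσ₂ (σ₂K⁻¹ • y)
      rw [hφ, Ideal.Quotient.eq] at h1
      have h2 : σ₂ • (σ₂K⁻¹ • y) = y := by
        show σ₂K • (σ₂K⁻¹ • y) = y
        rw [smul_inv_smul]
      rw [h2] at h1
      have h3 : (σ₁ * σ₂K⁻¹) • y = σ₁ • (σ₂K⁻¹ • y) := mul_smul _ _ _
      rw [h3]
      have h4 := Q.neg_mem h1
      rwa [neg_sub] at h4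
  apply hτ1
  ext x
  have h1 := hin _ hσin (algebraMap L (AlgebraicClosure K) x) x.2
  have h2 : σ₂K (algebraMap L (AlgebraicClosure K) x) = algebraMap L (AlgebraicClosure K) x := σ₂.commutes x
  have h3 : σ₂K⁻¹ (algebraMap L (AlgebraicClosure K) x) = algebraMap L (AlgebraicClosure K) x := by
    have h4 : σ₂K⁻¹ (σ₂K (algebraMap L (AlgebraicClosure K) x)) = algebraMap L (AlgebraicClosure K) x := by
      rw [← AlgEquiv.mul_apply, inv_mul_cancel]
      rfl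
    rwa [h2] at h4
  rw [AlgEquiv.mul_apply, h3] at h1
  have h5 : σ₁ (algebraMap L (AlgebraicClosure K) x) = g (h0 (algebraMap L (AlgebraicClosure K) x)) := rfl
  rw [h5, hh0L, hgL] at h1
  exact congrArg _ ((algebraMap L (AlgebraicClosure K)).injective h1)

end Pool.Agent.GK
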